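import Pool.Agent.H87.EBK.Stmts3

/-!
# Board `ebt`, row SEL: two labels of the forest have dense common partners
-/

set_option autoImplicit false

namespace Pool.EBK

/-- **SEL**. -/
theorem sel (hH : HUB) (hW : WRT) : SEL := by
  rintro h p q y1 y2 F ⟨⟨⟨h1, h2, h3⟩, -⟩, h4⟩ ⟨⟨⟨-, h5, h6⟩, -⟩, h7⟩ h8 h9
  have hT : Third p q h := ⟨h1, by rwa [add_comm], by rwa [add_comm]⟩
  obtain ⟨r, hr1, hr2, hr3, -, hr4, hr5⟩ := hW p q y1 y2 F (hH h p q h2 h5 hT h4 h7) h8 h9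
  exact ⟨r, hr1, hr2, hr3, hr4, hr5⟩

end Pool.EBK
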